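import Pool.Agent.P.MP_181197_gt.ConSq

namespace Pool.Agent.Results.MP_181197_gt.ConCounter

open Pool.Agent.Lib.Helper87 Pool.Agent.P.MP_6e1b89_gt Pool.Agent.P.MP_181197_gt

/-- There is a transitive model `M` of ZFC containing a space `X` such that, in the sense of `M`,
`X` is Tychonoff, `C_p(X)` is perfectly normal and `C_p(X) × C_p(X)` is not normal. -/
theorem result : ∃ M : Set ZFSet.{0}, TransModelZFC M ∧
    ∃ (X : Type) (c : X → ZFSet.{0}) (𝒯 : Set (Set X)), Function.Injective c ∧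
      cSet c Set.univ ∈ M ∧ cSet (cSet c) 𝒯 ∈ M ∧ TychonoffIn M c 𝒯 ∧
      PerfNormalIn M (fun f : CpIn M c 𝒯 => cFun c cReal Set.univ f.1) ∧
      ¬ NormalIn M fun y : CpIn M c 𝒯 × CpIn M c 𝒯 =>
        ZFSet.pair (cFun c cReal Set.univ y.1.1) (cFun c cReal Set.univ y.2.1) :=
  Con.con_main

end Pool.Agent.Results.MP_181197_gt.ConCounter
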