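import Mathlib
import Pool.Agent.P.MP_181197_gt.Square

namespace Pool.Agent.Results.MP_181197_gt.SquareNotNormal

open Pool.Agent.P.MP_181197_gt

/-- There is a Tychonoff space `X` such that every family of open subsets of `C_p(X)` has a
subfamily of size `< 𝔟` with the same union (so `C_p(X)` is perfectly normal if `𝔟 = ℵ₁`), while
`C_p(X) × C_p(X)` is not normal and has a closed discrete subset of size `𝔟`. -/
theorem result : ∃ (X : Type) (_ : TopologicalSpace X) (_ : T35Space X),
    (∀ 𝒰 : Set (Set {f : X → ℝ // Continuous f}), (∀ U ∈ 𝒰, IsOpen U) →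
      ∃ 𝒱 ⊆ 𝒰, Cardinal.mk 𝒱 < boundingNumber ∧ ⋃₀ 𝒱 = ⋃₀ 𝒰) ∧
    (boundingNumber = Cardinal.aleph 1 → PerfectlyNormalSpace {f : X → ℝ // Continuous f}) ∧
    ¬ NormalSpace ({f : X → ℝ // Continuous f} × {f : X → ℝ // Continuous f}) ∧
    ∃ D : Set ({f : X → ℝ // Continuous f} × {f : X → ℝ // Continuous f}),
      IsClosed D ∧ DiscreteTopology D ∧ Cardinal.mk D = boundingNumber :=
  main

end Pool.Agent.Results.MP_181197_gt.SquareNotNormal
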